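import Mathlib

/-!
# MP_4a8fbb_co: the regular icosahedron and the regular dodecahedron can be enlarged

From every labelling of the vertices the pieces reach the vertices of the homothetic copy with
ratio `2 + √5`, every piece ending at the image of its own vertex; 34 jumps suffice for the
icosahedron and 51 jumps for the dodecahedron.
-/

set_option autoImplicit false

open Real
open scoped goldenRatio

namespace Pool.Agent.Results.MP_4a8fbb_co.GoldenEnlargement

/-! ### Definitions -/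

/-- Euclidean space of dimension three -/
abbrev E := EuclideanSpace ℝ (Fin 3)

/-- One legal move: some piece `i` leaps over another piece `j`, the others stay. -/
def Move {ι : Type} (P Q : ι → E) : Prop :=
  ∃ i j, i ≠ j ∧ Q i = (2 : ℝ) • P j - P i ∧ ∀ k, k ≠ i → Q k = P k

/-- `Q` is obtained from `P` by exactly `m` legal moves. -/
def ReachIn {ι : Type} : ℕ → (ι → E) → (ι → E) → Prop
  | 0, P, Q => P = Q
  | m + 1, P, Q => ∃ R, Move P R ∧ ReachIn m R Q

/-- `σ` is a similarity with ratio `r`: a scaled linear isometry followed by a translation. -/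
def IsSimilarity (r : ℝ) (σ : E → E) : Prop :=
  0 < r ∧ ∃ (R : E →ₗᵢ[ℝ] E) (t : E), ∀ x, σ x = r • R x + t

/-- The vertices of a regular icosahedron: the points `(0, ±1, ±φ)` and their cyclic
permutations. -/
def icoStd : Set E :=
  {x | (x 0 = 0 ∧ |x 1| = 1 ∧ |x 2| = φ) ∨ (x 1 = 0 ∧ |x 2| = 1 ∧ |x 0| = φ) ∨
    (x 2 = 0 ∧ |x 0| = 1 ∧ |x 1| = φ)}

/-- The vertices of a regular dodecahedron: the points `(±1, ±1, ±1)` and the cyclic permutations
of `(0, ±1/φ, ±φ)`. -/
def dodStd : Set E :=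
  {x | (|x 0| = 1 ∧ |x 1| = 1 ∧ |x 2| = 1) ∨ (x 0 = 0 ∧ |x 1| = φ⁻¹ ∧ |x 2| = φ) ∨
    (x 1 = 0 ∧ |x 2| = φ⁻¹ ∧ |x 0| = φ) ∨ (x 2 = 0 ∧ |x 0| = φ⁻¹ ∧ |x 1| = φ)}

/-- `T` is the vertex set of a regular icosahedron. -/
def IsIcosahedron (T : Set E) : Prop := ∃ r σ, IsSimilarity r σ ∧ T = σ '' icoStd

/-- `T` is the vertex set of a regular dodecahedron. -/
def IsDodecahedron (T : Set E) : Prop := ∃ r σ, IsSimilarity r σ ∧ T = σ '' dodStd

/-- The solid with vertex set `T` can be enlarged: whenever there is exactly one piece at each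
point of `T`, some finite sequence of legal moves ends with exactly one piece at each point of a
similar copy `σ '' T` with ratio `r > 1`. -/
def CanBeEnlarged (T : Set E) : Prop :=
  ∀ (ι : Type) (P : ι → E), Function.Injective P → Set.range P = T →
    ∃ (m : ℕ) (Q : ι → E) (r : ℝ) (σ : E → E), ReachIn m P Q ∧ 1 < r ∧ IsSimilarity r σ ∧
      Function.Injective Q ∧ Set.range Q = σ '' T

/-! ### Moves in the lattice -/

/-- a legal move for positions in `ℤ⁶` -/
def IMove {n : ℕ} (C D : Fin n → Fin 6 → ℤ) : Prop :=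
  ∃ i j, i ≠ j ∧ D i = (2 : ℤ) • C j - C i ∧ ∀ k, k ≠ i → D k = C k

/-- `m` legal moves in the lattice -/
def IReach {n : ℕ} : ℕ → (Fin n → Fin 6 → ℤ) → (Fin n → Fin 6 → ℤ) → Prop
  | 0, C, D => C = D
  | m + 1, C, D => ∃ R, IMove C R ∧ IReach m R D

theorem IReach.trans {n a b : ℕ} {C D F : Fin n → Fin 6 → ℤ} (h1 : IReach a C D)
    (h2 : IReach b D F) : IReach (a + b) C F := by
  induction a generalizing C with
  | zero =>
    have h : C = D := h1
    subst h
    rwa [Nat.zero_add]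
  | succ a ih =>
    obtain ⟨R, hR, h3⟩ := h1
    rw [Nat.succ_add]
    exact ⟨R, hR, ih h3⟩

/-- the final position of the piece `c` after jumping over the pieces of `l` -/
def jumps {n : ℕ} (C : Fin n → Fin 6 → ℤ) (p : Fin 6 → ℤ) (l : List (Fin n)) : Fin 6 → ℤ :=
  l.foldl (fun q k => (2 : ℤ) • C k - q) p

theorem reach_jumps {n : ℕ} (c : Fin n) (l : List (Fin n)) (C : Fin n → Fin 6 → ℤ)
    (hl : ∀ k ∈ l, k ≠ c) :
    IReach l.length C (Function.update C c (jumps C (C c) l)) := by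
  suffices h : ∀ (l : List (Fin n)) (p : Fin 6 → ℤ), (∀ k ∈ l, k ≠ c) →
      IReach l.length (Function.update C c p) (Function.update C c (jumps C p l)) by
    have := h l (C c) hl
    rwa [Function.update_eq_self] at this
  intro l
  induction l with
  | nil =>
    intro p _
    rfl
  | cons k l ih =>
    intro p hl
    have hk : k ≠ c := hl k (by simp)
    refine ⟨Function.update C c ((2 : ℤ) • C k - p), ⟨c, k, hk.symm, ?_, ?_⟩, ?_⟩
    · rw [Function.update_self, Function.update_of_ne hk, Function.update_self]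
    · intro j hj
      rw [Function.update_of_ne hj, Function.update_of_ne hj]
    · exact ih _ fun j hj => hl j (by simp [hj])

/-- multiplication by the golden ratio in coordinates -/
def mulPhi (v : Fin 6 → ℤ) : Fin 6 → ℤ := ![v 1, v 0 + v 1, v 3, v 2 + v 3, v 5, v 4 + v 5]

/-- the target `(1 + 2 φ) v + 2 φ w` -/
def tgt (w v : Fin 6 → ℤ) : Fin 6 → ℤ := v + (2 : ℤ) • mulPhi v + (2 : ℤ) • mulPhi w

/-- the configuration in which the pieces of rank less than `s` are at their targets -/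
def stage {n : ℕ} (V : Fin n → Fin 6 → ℤ) (w : Fin 6 → ℤ) (rk : Fin n → ℕ) (s : ℕ) :
    Fin n → Fin 6 → ℤ := fun i => if rk i < s then tgt w (V i) else V i

theorem reach_all {n : ℕ} (V : Fin n → Fin 6 → ℤ) (w : Fin 6 → ℤ) (rk : Fin n → ℕ)
    (ord : Fin n → Fin n) (ls : Fin n → List (Fin n)) (hrk : ∀ i, rk i < n)
    (h1 : ∀ s : Fin n, ∀ k ∈ ls s, k ≠ ord s) (h2 : ∀ s : Fin n, rk (ord s) = s)
    (h3 : ∀ (s : Fin n) (i : Fin n), rk i = s → i = ord s)
    (h4 : ∀ s : Fin n, jumps (stage V w rk s) (V (ord s)) (ls s) = tgt w (V (ord s))) :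
    IReach (∑ s, (ls s).length) V fun i => tgt w (V i) := by
  have key : ∀ s : ℕ, ∀ hs : s ≤ n,
      IReach (∑ k : Fin s, (ls (Fin.castLE hs k)).length) V (stage V w rk s) := by
    intro s
    induction s with
    | zero =>
      intro _
      change V = stage V w rk 0
      funext i
      simp [stage]
    | succ s ih =>
      intro hs
      rw [Fin.sum_univ_castSucc]
      refine (ih (by omega)).trans ?_
      have h5 := reach_jumps (ord ⟨s, hs⟩) (ls ⟨s, hs⟩) (stage V w rk s) (h1 ⟨s, hs⟩)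
      have h6 : stage V w rk s (ord ⟨s, hs⟩) = V (ord ⟨s, hs⟩) := by
        have := h2 ⟨s, hs⟩
        simp [stage, this]
      rw [h6] at h5
      have h7 : Function.update (stage V w rk s) (ord ⟨s, hs⟩)
          (jumps (stage V w rk s) (V (ord ⟨s, hs⟩)) (ls ⟨s, hs⟩)) = stage V w rk (s + 1) := by
        funext i
        by_cases hi : i = ord ⟨s, hs⟩
        · subst hi
          rw [Function.update_self]
          have h8 := h4 ⟨s, hs⟩
          have h9 := h2 ⟨s, hs⟩
          simp only at h8 h9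
          rw [h8]
          simp [stage, h9]
        · rw [Function.update_of_ne hi]
          have h8 : rk i ≠ s := fun h => hi (h3 ⟨s, hs⟩ i h)
          unfold stage
          by_cases h9 : rk i < s
          · rw [if_pos h9, if_pos (by omega)]
          · rw [if_neg h9, if_neg (by omega)]
      rw [h7] at h5
      exact h5
  have h5 := key n le_rfl
  have h6 : stage V w rk n = fun i => tgt w (V i) := by
    funext i
    simp [stage, hrk i]
  rw [h6] at h5
  exact h5

/-! ### From the lattice to space -/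

/-- the point with coordinates `a + b φ` -/
noncomputable def pt (v : Fin 6 → ℤ) : E :=
  !₂[(v 0 : ℝ) + v 1 * φ, (v 2 : ℝ) + v 3 * φ, (v 4 : ℝ) + v 5 * φ]

theorem pt_0 (v : Fin 6 → ℤ) : pt v 0 = (v 0 : ℝ) + v 1 * φ := by simp [pt]
theorem pt_1 (v : Fin 6 → ℤ) : pt v 1 = (v 2 : ℝ) + v 3 * φ := by simp [pt]
theorem pt_2 (v : Fin 6 → ℤ) : pt v 2 = (v 4 : ℝ) + v 5 * φ := by simp [pt]

theorem ext3 {x y : E} (h0 : x 0 = y 0) (h1 : x 1 = y 1) (h2 : x 2 = y 2) : x = y := by
  ext i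
  fin_cases i
  · exact h0
  · exact h1
  · exact h2

theorem pt_jump (u v : Fin 6 → ℤ) : pt ((2 : ℤ) • u - v) = (2 : ℝ) • pt u - pt v := by
  apply ext3
  · rw [pt_0, PiLp.sub_apply, PiLp.smul_apply, pt_0, pt_0]
    simp
    ring
  · rw [pt_1, PiLp.sub_apply, PiLp.smul_apply, pt_1, pt_1]
    simp
    ring
  · rw [pt_2, PiLp.sub_apply, PiLp.smul_apply, pt_2, pt_2]
    simp
    ring

theorem tgt_0 (w v : Fin 6 → ℤ) : tgt w v 0 = v 0 + 2 * v 1 + 2 * w 1 := rfl
theorem tgt_1 (w v : Fin 6 → ℤ) : tgt w v 1 = v 1 + 2 * (v 0 + v 1) + 2 * (w 0 + w 1) := rfl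
theorem tgt_2 (w v : Fin 6 → ℤ) : tgt w v 2 = v 2 + 2 * v 3 + 2 * w 3 := rfl
theorem tgt_3 (w v : Fin 6 → ℤ) : tgt w v 3 = v 3 + 2 * (v 2 + v 3) + 2 * (w 2 + w 3) := rfl
theorem tgt_4 (w v : Fin 6 → ℤ) : tgt w v 4 = v 4 + 2 * v 5 + 2 * w 5 := rfl
theorem tgt_5 (w v : Fin 6 → ℤ) : tgt w v 5 = v 5 + 2 * (v 4 + v 5) + 2 * (w 4 + w 5) := rfl

theorem pt_tgt (w v : Fin 6 → ℤ) : pt (tgt w v) = (2 + √5) • pt v + (2 * φ) • pt w := by
  have h5 : (2 : ℝ) + √5 = 1 + 2 * φ := by
    unfold Real.goldenRatio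
    ring
  have hsq := Real.goldenRatio_sq
  rw [h5]
  apply ext3
  · rw [pt_0, PiLp.add_apply, PiLp.smul_apply, PiLp.smul_apply, pt_0, pt_0, tgt_0, tgt_1,
      smul_eq_mul, smul_eq_mul]
    push_cast
    linear_combination (-(2 * (v 1 : ℝ)) - 2 * (w 1 : ℝ)) * hsq
  · rw [pt_1, PiLp.add_apply, PiLp.smul_apply, PiLp.smul_apply, pt_1, pt_1, tgt_2, tgt_3,
      smul_eq_mul, smul_eq_mul]
    push_cast
    linear_combination (-(2 * (v 3 : ℝ)) - 2 * (w 3 : ℝ)) * hsq
  · rw [pt_2, PiLp.add_apply, PiLp.smul_apply, PiLp.smul_apply, pt_2, pt_2, tgt_4, tgt_5,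
      smul_eq_mul, smul_eq_mul]
    push_cast
    linear_combination (-(2 * (v 5 : ℝ)) - 2 * (w 5 : ℝ)) * hsq

theorem int_phi {a b c d : ℤ} (h : (a : ℝ) + b * φ = c + d * φ) : a = c ∧ b = d := by
  have h1 : ((b - d : ℤ) : ℝ) * φ = ((c - a : ℤ) : ℝ) := by
    push_cast
    linarith
  have h2 : b - d = 0 := by
    by_contra hne
    have hirr := Real.goldenRatio_irrational
    have h3 : φ = ((c - a : ℤ) : ℝ) / ((b - d : ℤ) : ℝ) := by
      rw [eq_div_iff (by exact_mod_cast hne)]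
      linarith
    apply hirr
    refine ⟨((c - a : ℤ) : ℚ) / ((b - d : ℤ) : ℚ), ?_⟩
    rw [h3]
    push_cast
    ring
  have h3 : b = d := by omega
  subst h3
  refine ⟨?_, rfl⟩
  have h4 : (a : ℝ) = c := by linarith
  exact_mod_cast h4

theorem pt_inj : Function.Injective pt := by
  intro u v h
  have h0 := congrArg (fun x : E => x 0) h
  have h1 := congrArg (fun x : E => x 1) h
  have h2 := congrArg (fun x : E => x 2) h
  simp only [pt_0, pt_1, pt_2] at h0 h1 h2
  obtain ⟨a0, a1⟩ := int_phi h0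
  obtain ⟨a2, a3⟩ := int_phi h1
  obtain ⟨a4, a5⟩ := int_phi h2
  funext i
  fin_cases i <;> assumption

/-! ### Similarities and relabellings -/

theorem move_sim {ι : Type} {r : ℝ} {σ : E → E} (hσ : IsSimilarity r σ) {P Q : ι → E}
    (h : Move P Q) : Move (fun i => σ (P i)) (fun i => σ (Q i)) := by
  obtain ⟨i, j, hij, h1, h2⟩ := h
  obtain ⟨-, R, t, hR⟩ := hσ
  refine ⟨i, j, hij, ?_, fun k hk => ?_⟩
  · simp only
    rw [h1, hR, hR, hR, map_sub, map_smul]
    module
  · simp only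
    rw [h2 k hk]

theorem reach_transfer {n m : ℕ} {C D : Fin n → Fin 6 → ℤ} (h : IReach m C D) {r : ℝ} {σ : E → E}
    (hσ : IsSimilarity r σ) {ι : Type} (e : ι ≃ Fin n) :
    ReachIn m (fun i => σ (pt (C (e i)))) (fun i => σ (pt (D (e i)))) := by
  induction m generalizing C with
  | zero =>
    have h' : C = D := h
    subst h'
    rfl
  | succ m ih =>
    obtain ⟨R, ⟨i, j, hij, h1, h2⟩, h3⟩ := h
    refine ⟨fun i => σ (pt (R (e i))), ?_, ih h3⟩
    apply move_sim hσ (P := fun i => pt (C (e i))) (Q := fun i => pt (R (e i)))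
    refine ⟨e.symm i, e.symm j, fun hh => hij (e.symm.injective hh), ?_, fun k hk => ?_⟩
    · simp only [Equiv.apply_symm_apply]
      rw [h1, pt_jump]
    · simp only
      rw [h2 (e k)]
      intro hh
      apply hk
      rw [← hh, Equiv.symm_apply_apply]

theorem sim_inj {r : ℝ} {σ : E → E} (hσ : IsSimilarity r σ) : Function.Injective σ := by
  obtain ⟨hr, R, t, hR⟩ := hσ
  intro x y h
  rw [hR, hR] at h
  have h1 := add_right_cancel h
  have h2 := smul_right_injective E hr.ne' h1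
  exact R.injective h2

/-- the general result, for a solid with a table of vertices -/
theorem main {n m : ℕ} (V : Fin n → Fin 6 → ℤ) (w : Fin 6 → ℤ) (hV : Function.Injective V)
    (hreach : IReach m V fun i => tgt w (V i)) (S : Set E)
    (hS : Set.range (fun i => pt (V i)) = S) (T : Set E)
    (hT : ∃ r σ, IsSimilarity r σ ∧ T = σ '' S) (ι : Type) (P : ι → E)
    (hP : Function.Injective P) (hPT : Set.range P = T) :
    ∃ t : E, ReachIn m P fun i => (2 + √5) • P i + t := by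
  obtain ⟨r, σ, hσ, rfl⟩ := hT
  subst hS
  have hinj : Function.Injective fun i => σ (pt (V i)) :=
    (sim_inj hσ).comp (pt_inj.comp hV)
  have hrange : Set.range P = Set.range fun i => σ (pt (V i)) := by
    rw [hPT, ← Set.range_comp]
    rfl
  let e : ι ≃ Fin n := (Equiv.ofInjective P hP).trans
    ((Equiv.setCongr hrange).trans (Equiv.ofInjective _ hinj).symm)
  have he : ∀ i, σ (pt (V (e i))) = P i := by
    intro i
    have h1 : (Equiv.ofInjective _ hinj) (e i) = Equiv.setCongr hrange (Equiv.ofInjective P hP i) := by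
      simp [e]
    have h2 := congrArg Subtype.val h1
    simpa using h2
  have h1 := reach_transfer hreach hσ e
  have h2 : (fun i => σ (pt (V (e i)))) = P := funext he
  rw [h2] at h1
  have hσ' := hσ
  obtain ⟨hr, R, s, hR⟩ := hσ
  refine ⟨r • (2 * φ) • R (pt w) + s - (2 + √5) • s, ?_⟩
  convert h1 using 2 with i
  rw [hR, pt_tgt, ← he i, hR, map_add, map_smul, map_smul]
  module

theorem enlarged_of {T : Set E} {m : ℕ} (h : ∀ (ι : Type) (P : ι → E), Function.Injective P →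
    Set.range P = T → ∃ t : E, ReachIn m P fun i => (2 + √5) • P i + t) : CanBeEnlarged T := by
  intro ι P hP hPT
  obtain ⟨t, ht⟩ := h ι P hP hPT
  have hpos : (0 : ℝ) < 2 + √5 := by positivity
  have hsim : IsSimilarity (2 + √5) fun x => (2 + √5) • x + t :=
    ⟨hpos, LinearIsometry.id, t, fun x => rfl⟩
  refine ⟨m, _, 2 + √5, fun x => (2 + √5) • x + t, ht, ?_, hsim, ?_, ?_⟩
  · have : (0 : ℝ) ≤ √5 := Real.sqrt_nonneg 5
    linarith
  · exact (sim_inj hsim).comp hP
  · rw [← hPT, ← Set.range_comp]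
    rfl

/-! ### The tables -/

/-- the vertices, in the basis `1, φ` of each coordinate -/
def icoV : Fin 12 → Fin 6 → ℤ :=
  ![![0, 0, 1, 0, 0, 1],
    ![0, 1, 0, 0, 1, 0],
    ![1, 0, 0, 1, 0, 0],
    ![0, 0, 1, 0, 0, -1],
    ![0, -1, 0, 0, 1, 0],
    ![1, 0, 0, -1, 0, 0],
    ![0, 0, -1, 0, 0, 1],
    ![0, 1, 0, 0, -1, 0],
    ![-1, 0, 0, 1, 0, 0],
    ![0, 0, -1, 0, 0, -1],
    ![0, -1, 0, 0, -1, 0],
    ![-1, 0, 0, -1, 0, 0]]

/-- the order in which the pieces move -/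
def icoOrd : Fin 12 → Fin 12 :=
  ![9, 10, 7, 5, 11, 3, 6, 1, 2, 8, 4, 0]

/-- the position of a piece in this order -/
def icoRk : Fin 12 → ℕ :=
  ![11, 7, 8, 5, 10, 3, 6, 2, 9, 0, 1, 4]

/-- the pieces over which it jumps -/
def icoSeq : Fin 12 → List (Fin 12) :=
  ![[], [5, 4], [11, 1], [3, 1], [3, 4], [2, 6, 8], [9, 10, 3, 7], [6, 11, 9], [1, 5, 9],
    [2, 7, 9], [6, 5, 9], [9, 7, 9, 5, 2, 3, 1]]

theorem ico_reach : IReach 34 icoV fun i => tgt ![0, 0, 1, 0, 0, 1] (icoV i) := by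
  have h := reach_all icoV ![0, 0, 1, 0, 0, 1] icoRk icoOrd icoSeq (by decide +kernel)
    (by decide +kernel) (by decide +kernel) (by decide +kernel) (by decide +kernel)
  have h2 : (∑ s, (icoSeq s).length) = 34 := by decide +kernel
  rwa [h2] at h

theorem ico_inj : Function.Injective icoV := by
  have h : ∀ i j, icoV i = icoV j → i = j := by decide +kernel
  exact fun i j => h i j

/-- the vertices, in the basis `1, φ` of each coordinate -/
def dodV : Fin 20 → Fin 6 → ℤ :=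
  ![![1, 0, 1, 0, 1, 0],
    ![1, 0, 1, 0, -1, 0],
    ![1, 0, -1, 0, 1, 0],
    ![1, 0, -1, 0, -1, 0],
    ![-1, 0, 1, 0, 1, 0],
    ![-1, 0, 1, 0, -1, 0],
    ![-1, 0, -1, 0, 1, 0],
    ![-1, 0, -1, 0, -1, 0],
    ![0, 0, -1, 1, 0, 1],
    ![0, 1, 0, 0, -1, 1],
    ![-1, 1, 0, 1, 0, 0],
    ![0, 0, -1, 1, 0, -1],
    ![0, -1, 0, 0, -1, 1],
    ![-1, 1, 0, -1, 0, 0],
    ![0, 0, 1, -1, 0, 1],
    ![0, 1, 0, 0, 1, -1],
    ![1, -1, 0, 1, 0, 0],
    ![0, 0, 1, -1, 0, -1],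
    ![0, -1, 0, 0, 1, -1],
    ![1, -1, 0, -1, 0, 0]]

/-- the order in which the pieces move -/
def dodOrd : Fin 20 → Fin 20 :=
  ![12, 19, 18, 16, 8, 6, 4, 14, 13, 9, 17, 11, 0, 1, 2, 3, 5, 7, 15, 10]

/-- the position of a piece in this order -/
def dodRk : Fin 20 → ℕ :=
  ![12, 13, 14, 15, 6, 16, 5, 17, 4, 9, 19, 11, 0, 8, 7, 18, 3, 10, 2, 1]

/-- the pieces over which it jumps -/
def dodSeq : Fin 20 → List (Fin 20) :=
  ![[], [16, 3], [0, 1], [6, 10], [7, 9], [11, 3], [17, 1], [5, 9], [10, 7, 19], [19, 13],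
    [1, 6, 19], [3, 4, 16], [1, 6, 14], [8, 0], [3, 4, 8], [14, 2], [3, 13, 12], [12, 6, 19],
    [12, 18, 12, 4, 1], [12, 15, 1, 4, 0]]

theorem dod_reach : IReach 51 dodV fun i => tgt ![0, 1, 0, 0, 1, -1] (dodV i) := by
  have h := reach_all dodV ![0, 1, 0, 0, 1, -1] dodRk dodOrd dodSeq (by decide +kernel)
    (by decide +kernel) (by decide +kernel) (by decide +kernel) (by decide +kernel)
  have h2 : (∑ s, (dodSeq s).length) = 51 := by decide +kernel
  rwa [h2] at h

theorem dod_inj : Function.Injective dodV := by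
  have h : ∀ i j, dodV i = dodV j → i = j := by decide +kernel
  exact fun i j => h i j
theorem inv_phi : φ⁻¹ = -1 + φ := by
  have h := Real.goldenRatio_sq
  have hpos := Real.goldenRatio_pos
  apply inv_eq_of_mul_eq_one_right
  linear_combination h

theorem inv_phi_pos : (0 : ℝ) < -1 + φ := by
  rw [← inv_phi]
  exact inv_pos.2 Real.goldenRatio_pos

theorem ico_mem (i : Fin 12) : pt (icoV i) ∈ icoStd := by
  have h := abs_of_pos Real.goldenRatio_pos
  fin_cases i <;> simp [icoStd, pt_0, pt_1, pt_2, icoV, h]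

theorem dod_mem (i : Fin 20) : pt (dodV i) ∈ dodStd := by
  have h := abs_of_pos Real.goldenRatio_pos
  have h1 := abs_of_pos inv_phi_pos
  have h2 : |1 + -φ| = -1 + φ := by
    rw [show 1 + -φ = -(-1 + φ) by ring, abs_neg, h1]
  have h3 := inv_phi
  fin_cases i <;> simp [dodStd, pt_0, pt_1, pt_2, dodV, h, h1, h2, h3]

theorem ico_range : Set.range (fun i => pt (icoV i)) = icoStd := by
  apply Set.Subset.antisymm
  · rintro _ ⟨i, rfl⟩
    exact ico_mem i
  · have hφ := Real.goldenRatio_pos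
    rintro x (⟨h0, h1, h2⟩ | ⟨h0, h1, h2⟩ | ⟨h0, h1, h2⟩) <;>
      rcases (abs_eq zero_le_one).1 h1 with h1 | h1 <;>
      rcases (abs_eq hφ.le).1 h2 with h2 | h2
    · exact ⟨0, by apply ext3 <;> simp [pt_0, pt_1, pt_2, icoV, h0, h1, h2]⟩
    · exact ⟨3, by apply ext3 <;> simp [pt_0, pt_1, pt_2, icoV, h0, h1, h2]⟩
    · exact ⟨6, by apply ext3 <;> simp [pt_0, pt_1, pt_2, icoV, h0, h1, h2]⟩
    · exact ⟨9, by apply ext3 <;> simp [pt_0, pt_1, pt_2, icoV, h0, h1, h2]⟩
    · exact ⟨1, by apply ext3 <;> simp [pt_0, pt_1, pt_2, icoV, h0, h1, h2]⟩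
    · exact ⟨4, by apply ext3 <;> simp [pt_0, pt_1, pt_2, icoV, h0, h1, h2]⟩
    · exact ⟨7, by apply ext3 <;> simp [pt_0, pt_1, pt_2, icoV, h0, h1, h2]⟩
    · exact ⟨10, by apply ext3 <;> simp [pt_0, pt_1, pt_2, icoV, h0, h1, h2]⟩
    · exact ⟨2, by apply ext3 <;> simp [pt_0, pt_1, pt_2, icoV, h0, h1, h2]⟩
    · exact ⟨5, by apply ext3 <;> simp [pt_0, pt_1, pt_2, icoV, h0, h1, h2]⟩
    · exact ⟨8, by apply ext3 <;> simp [pt_0, pt_1, pt_2, icoV, h0, h1, h2]⟩
    · exact ⟨11, by apply ext3 <;> simp [pt_0, pt_1, pt_2, icoV, h0, h1, h2]⟩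

theorem dod_range : Set.range (fun i => pt (dodV i)) = dodStd := by
  apply Set.Subset.antisymm
  · rintro _ ⟨i, rfl⟩
    exact dod_mem i
  · have hφ := Real.goldenRatio_pos
    have hi : 0 ≤ φ⁻¹ := (inv_pos.2 hφ).le
    have h3 := inv_phi
    have h4 : 1 + -φ = -φ⁻¹ := by
      rw [inv_phi]
      ring
    rintro x (⟨h0, h1, h2⟩ | ⟨h0, h1, h2⟩ | ⟨h0, h1, h2⟩ | ⟨h0, h1, h2⟩)
    · rcases (abs_eq zero_le_one).1 h0 with h0 | h0 <;>
        rcases (abs_eq zero_le_one).1 h1 with h1 | h1 <;>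
        rcases (abs_eq zero_le_one).1 h2 with h2 | h2
      · exact ⟨0, by apply ext3 <;> simp [pt_0, pt_1, pt_2, dodV, h0, h1, h2]⟩
      · exact ⟨1, by apply ext3 <;> simp [pt_0, pt_1, pt_2, dodV, h0, h1, h2]⟩
      · exact ⟨2, by apply ext3 <;> simp [pt_0, pt_1, pt_2, dodV, h0, h1, h2]⟩
      · exact ⟨3, by apply ext3 <;> simp [pt_0, pt_1, pt_2, dodV, h0, h1, h2]⟩
      · exact ⟨4, by apply ext3 <;> simp [pt_0, pt_1, pt_2, dodV, h0, h1, h2]⟩
      · exact ⟨5, by apply ext3 <;> simp [pt_0, pt_1, pt_2, dodV, h0, h1, h2]⟩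
      · exact ⟨6, by apply ext3 <;> simp [pt_0, pt_1, pt_2, dodV, h0, h1, h2]⟩
      · exact ⟨7, by apply ext3 <;> simp [pt_0, pt_1, pt_2, dodV, h0, h1, h2]⟩
    · rcases (abs_eq hi).1 h1 with h1 | h1 <;> rcases (abs_eq hφ.le).1 h2 with h2 | h2
      · exact ⟨8, by apply ext3 <;> simp [pt_0, pt_1, pt_2, dodV, h0, h1, h2, h3]⟩
      · exact ⟨11, by apply ext3 <;> simp [pt_0, pt_1, pt_2, dodV, h0, h1, h2, h3]⟩
      · exact ⟨14, by apply ext3 <;> simp [pt_0, pt_1, pt_2, dodV, h0, h1, h2, h4]⟩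
      · exact ⟨17, by apply ext3 <;> simp [pt_0, pt_1, pt_2, dodV, h0, h1, h2, h4]⟩
    · rcases (abs_eq hi).1 h1 with h1 | h1 <;> rcases (abs_eq hφ.le).1 h2 with h2 | h2
      · exact ⟨9, by apply ext3 <;> simp [pt_0, pt_1, pt_2, dodV, h0, h1, h2, h3]⟩
      · exact ⟨12, by apply ext3 <;> simp [pt_0, pt_1, pt_2, dodV, h0, h1, h2, h3]⟩
      · exact ⟨15, by apply ext3 <;> simp [pt_0, pt_1, pt_2, dodV, h0, h1, h2, h4]⟩
      · exact ⟨18, by apply ext3 <;> simp [pt_0, pt_1, pt_2, dodV, h0, h1, h2, h4]⟩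
    · rcases (abs_eq hi).1 h1 with h1 | h1 <;> rcases (abs_eq hφ.le).1 h2 with h2 | h2
      · exact ⟨10, by apply ext3 <;> simp [pt_0, pt_1, pt_2, dodV, h0, h1, h2, h3]⟩
      · exact ⟨13, by apply ext3 <;> simp [pt_0, pt_1, pt_2, dodV, h0, h1, h2, h3]⟩
      · exact ⟨16, by apply ext3 <;> simp [pt_0, pt_1, pt_2, dodV, h0, h1, h2, h4]⟩
      · exact ⟨19, by apply ext3 <;> simp [pt_0, pt_1, pt_2, dodV, h0, h1, h2, h4]⟩

/-- Both solids can be enlarged. More precisely, from every placement of one piece at each vertex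
of a regular icosahedron (dodecahedron) some sequence of 34 (51) legal moves carries all pieces
simultaneously to their images under a homothety with ratio `2 + √5`. -/
theorem result :
    (∀ T, IsIcosahedron T → CanBeEnlarged T ∧
      ∀ (ι : Type) (P : ι → E), Function.Injective P → Set.range P = T →
        ∃ t : E, ReachIn 34 P fun i => (2 + √5) • P i + t) ∧
    (∀ T, IsDodecahedron T → CanBeEnlarged T ∧
      ∀ (ι : Type) (P : ι → E), Function.Injective P → Set.range P = T →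
        ∃ t : E, ReachIn 51 P fun i => (2 + √5) • P i + t) := by
  refine ⟨fun T hT => ?_, fun T hT => ?_⟩
  · have h := main icoV _ ico_inj ico_reach icoStd ico_range T hT
    exact ⟨enlarged_of h, h⟩
  · have h := main dodV _ dod_inj dod_reach dodStd dod_range T hT
    exact ⟨enlarged_of h, h⟩

end Pool.Agent.Results.MP_4a8fbb_co.GoldenEnlargement
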